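import Mathlib

set_option autoImplicit false

namespace Pool.Agent.Results.MP_329cea_co.Counter

def A0 : Finset (ZMod 23) := {0, 1, 3, 4, 5, 6, 7, 8, 9, 12}
def D0 : Finset (ZMod 23) := {0, 2, 3, 21, 20, 19, 18, 5, 4, 14, 11, 10}
def F0 : Finset (ZMod 23 × ZMod 23) := (A0 ×ˢ A0).filter fun x => x.1 + x.2 ∈ D0

theorem result : ¬ ∀ β : ℝ, 0 < β → ∃ c : ℕ, ∀ p : ℕ, p.Prime → ∀ A : Finset (ZMod p),
    1 ≤ A.card → (A.card : ℝ) < (1 - β) * p / 2 → ∀ (d : ℕ) (F : Finset (ZMod p × ZMod p)),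
      F ⊆ A ×ˢ A → (∀ a, (F.filter fun x => x.1 = a).card ≤ d) →
      (∀ b, (F.filter fun x => x.2 = b).card ≤ d) →
      ∃ B ⊆ A, B.card ≤ c ∧
        2 * (A.card : ℤ) - 2 * d - 1 ≤ (((A ×ˢ B) \ F).image fun x => x.1 + x.2).card := by
  intro h
  obtain ⟨c, hc⟩ := h (1 / 10) (by norm_num)
  have hA : A0.card = 10 := by decide +kernel
  obtain ⟨B, hB, -, h2⟩ := hc 23 (by norm_num) A0 (by rw [hA]; norm_num) (by rw [hA]; norm_num) 4 F0
    (Finset.filter_subset _ _) (by decide +kernel) (by decide +kernel)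
  have h3 : (((A0 ×ˢ B) \ F0).image fun x => x.1 + x.2).card ≤
      (((A0 ×ˢ A0) \ F0).image fun x => x.1 + x.2).card :=
    Finset.card_le_card (Finset.image_subset_image
      (Finset.sdiff_subset_sdiff (Finset.product_subset_product_right hB) le_rfl))
  have h4 : (((A0 ×ˢ A0) \ F0).image fun x => x.1 + x.2).card ≤ 10 := by decide +kernel
  rw [hA] at h2
  omega

end Pool.Agent.Results.MP_329cea_co.Counter
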